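import Pool.Agent.helper32.NN.Spec

/-! Project NN (MP_3938c6_al), module PRS. -/

set_option autoImplicit false

open Submodule

namespace Pool.Agent.NN

universe u v

theorem PRS (hPER : PER_stmt.{u, v}) : PRS_stmt.{u, v} := by
  intro K U _ _ _ A hC S hSA hSS hSne
  have hAA : A * A = A := hPER K U A hC
  obtain ⟨m, hm⟩ := hC.prop S hSA hSS hSne
  have hA0 : A ≠ ⊥ := by
    have h := hC.notn 1
    rwa [pow_one] at h
  -- (a)
  have ha : A * S ≠ A := by
    intro h
    have hk : ∀ k : ℕ, A * S ^ k = A := by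
      intro k
      induction k with
      | zero => rw [pow_zero, mul_one]
      | succ k ih => rw [pow_succ, ← mul_assoc, ih, h]
    have h1 := hk m
    rw [hm, Submodule.mul_bot] at h1
    exact hA0 h1.symm
  have hASA : A * S ≤ A := (mul_le_mul' le_rfl hSA).trans hC.mul
  -- (b)
  have hLA : S ⊔ A * S ≤ A := sup_le hSA hASA
  have hAL : A * (S ⊔ A * S) ≤ A * S := by
    rw [Submodule.mul_sup, ← mul_assoc, hAA, sup_idem]
  have hLL : (S ⊔ A * S) * (S ⊔ A * S) ≤ S ⊔ A * S :=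
    (mul_le_mul' hLA le_rfl).trans (hAL.trans le_sup_right)
  have hLne : S ⊔ A * S ≠ A := by
    intro h
    apply ha
    apply le_antisymm hASA
    calc A = A * A := hAA.symm
      _ = A * (S ⊔ A * S) := by rw [h]
      _ ≤ A * S := hAL
  obtain ⟨n, hn⟩ := hC.prop _ hLA hLL hLne
  set L : Submodule K U := S ⊔ A * S with hL
  have hAL' : A * L ≤ L := hAL.trans le_sup_right
  -- (c)
  have hJV : L ⊔ L * A = L * (1 ⊔ A) := by
    rw [Submodule.mul_sup, mul_one]
  have hVL : (1 ⊔ A) * L ≤ L := by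
    rw [Submodule.sup_mul, one_mul]
    exact sup_le le_rfl hAL'
  have hpow : ∀ k : ℕ, (L ⊔ L * A) ^ k ≤ L ^ k * (1 ⊔ A) := by
    intro k
    induction k with
    | zero =>
      rw [pow_zero, pow_zero, one_mul]
      exact le_sup_left
    | succ k ih =>
      calc (L ⊔ L * A) ^ (k + 1) = (L ⊔ L * A) ^ k * (L ⊔ L * A) := pow_succ _ _
        _ ≤ (L ^ k * (1 ⊔ A)) * (L * (1 ⊔ A)) := mul_le_mul' ih (le_of_eq hJV)
        _ = L ^ k * ((1 ⊔ A) * L) * (1 ⊔ A) := by simp only [mul_assoc]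
        _ ≤ L ^ k * L * (1 ⊔ A) := mul_le_mul' (mul_le_mul' le_rfl hVL) le_rfl
        _ = L ^ (k + 1) * (1 ⊔ A) := by rw [pow_succ]
  refine ⟨L ⊔ L * A, ⟨?_, ?_, ?_⟩, ?_, n, ?_⟩
  · exact sup_le hLA ((mul_le_mul' hLA le_rfl).trans hC.mul)
  · rw [Submodule.mul_sup, ← mul_assoc]
    exact sup_le (hAL'.trans le_sup_left) ((mul_le_mul' hAL' le_rfl).trans le_sup_right)
  · rw [Submodule.sup_mul, mul_assoc, hAA]
    exact sup_le le_sup_right le_sup_right
  · exact le_sup_left.trans le_sup_left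
  · rw [eq_bot_iff]
    have h := hpow n
    rwa [hn, Submodule.bot_mul] at h

end Pool.Agent.NN
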